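import Pool.Agent.helper98.RPQ.SpecR
import Pool.Agent.helper62.RS.All

/-!
# rpq:CAK (MP_07c750_an): concatenation of complex kernels
-/

set_option autoImplicit false

open scoped MatrixGroups ContDiff Topology UpperHalfPlane ComplexConjugate ENNReal
open UpperHalfPlane MeasureTheory Filter Set

namespace Pool.Agent.RPQ

open Pool.Agent.RS
open Pool.Agent.MS (BA BB st pf gk Dk amk)

noncomputable section

private theorem CAK_fin (g : SL(2, ℝ)) (R : ℝ) : mG {p : SL(2, ℝ) | dist (g • I : ℍ) (p • I) ≤ R} < ⊤ := by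
  have h1 : IsCompact (Metric.closedBall (g • I : ℍ) R) := isCompact_closedBall _ _
  have h2 := A_GMG.2.1 _ (A_GLC.2.2.1 _ h1)
  refine lt_of_le_of_lt (measure_mono ?_) h2
  intro p hp
  show (p • I : ℍ) ∈ Metric.closedBall (g • I : ℍ) R
  rw [Metric.mem_closedBall, dist_comm]
  exact hp

private theorem CAK_int (Γ : Subgroup SL(2, ℝ)) (K0 K1 K2 : SL(2, ℝ) → SL(2, ℝ) → ℂ) (h0 : GKer Γ K0)
    (h1 : GKer Γ K1) (h2 : GKer Γ K2) (g h : SL(2, ℝ)) :
    Integrable (Function.uncurry fun q p : SL(2, ℝ) => K0 g q * K1 q p * K2 p h) (mG.prod mG) := by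
  have : SigmaFinite mG := A_GMG.2.2.1
  obtain ⟨B0, hB0⟩ := h0.bdd
  obtain ⟨B1, hB1⟩ := h1.bdd
  obtain ⟨B2, hB2⟩ := h2.bdd
  obtain ⟨D0, hD0⟩ := h0.range
  obtain ⟨D1, hD1⟩ := h1.range
  set S : Set SL(2, ℝ) := {p : SL(2, ℝ) | dist (g • I : ℍ) (p • I) ≤ D0} with hS
  set T : Set SL(2, ℝ) := {p : SL(2, ℝ) | dist (g • I : ℍ) (p • I) ≤ D0 + D1} with hT
  have hm : Measurable (Function.uncurry fun q p : SL(2, ℝ) => K0 g q * K1 q p * K2 p h) := by
    have m0 : Measurable fun w : SL(2, ℝ) × SL(2, ℝ) => K0 g w.1 :=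
      h0.meas.comp (measurable_const.prodMk measurable_fst)
    have m1 : Measurable fun w : SL(2, ℝ) × SL(2, ℝ) => K1 w.1 w.2 := h1.meas
    have m2 : Measurable fun w : SL(2, ℝ) × SL(2, ℝ) => K2 w.2 h :=
      h2.meas.comp (measurable_snd.prodMk measurable_const)
    exact (m0.mul m1).mul m2
  have hfin : (mG.prod mG) (S ×ˢ T) ≠ ⊤ := by
    rw [Measure.prod_prod]
    exact ENNReal.mul_ne_top (CAK_fin g D0).ne (CAK_fin g (D0 + D1)).ne
  have hon : IntegrableOn (Function.uncurry fun q p : SL(2, ℝ) => K0 g q * K1 q p * K2 p h) (S ×ˢ T)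
      (mG.prod mG) := by
    refine Measure.integrableOn_of_bounded (M := B0 * B1 * B2) hfin hm.aestronglyMeasurable ?_
    refine Eventually.of_forall ?_
    rintro ⟨q, p⟩
    show ‖K0 g q * K1 q p * K2 p h‖ ≤ B0 * B1 * B2
    rw [norm_mul, norm_mul]
    have n0 : 0 ≤ B0 := (norm_nonneg _).trans (hB0 g q)
    have n1 : 0 ≤ B1 := (norm_nonneg _).trans (hB1 g q)
    exact mul_le_mul (mul_le_mul (hB0 g q) (hB1 q p) (norm_nonneg _) n0) (hB2 p h) (norm_nonneg _)
      (mul_nonneg n0 n1)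
  refine hon.integrable_of_forall_notMem_eq_zero ?_
  rintro ⟨q, p⟩ hqp
  show K0 g q * K1 q p * K2 p h = 0
  by_cases c0 : K0 g q = 0
  · rw [c0, zero_mul, zero_mul]
  by_cases c1 : K1 q p = 0
  · rw [c1, mul_zero, zero_mul]
  exfalso
  apply hqp
  have d0 := hD0 g q c0
  have d1 := hD1 q p c1
  refine ⟨d0, ?_⟩
  show dist (g • I : ℍ) (p • I) ≤ D0 + D1
  have d2 := dist_triangle (g • I : ℍ) (q • I) (p • I)
  linarith

private theorem CAK_con (hUNK : UNK_stmt) (Γ : Subgroup SL(2, ℝ)) (F : Set ℍ) (hΓ : QU.SurfaceGroup Γ)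
    (hF : QU.NiceDom Γ F) (a : ℕ) : ∀ s : ℕ → SL(2, ℝ) → SL(2, ℝ) → ℂ, (∀ j, GKer Γ (s j)) →
    ∀ (b : ℕ) (g h : SL(2, ℝ)), pK (a + 1 + b) s g h = ∫ p, pK a s g p * pK b (fun j => s (a + 1 + j)) p h ∂mG := by
  have : SigmaFinite mG := A_GMG.2.2.1
  induction a with
  | zero =>
    intro s _ b g h
    have e1 : (fun j => s (0 + 1 + j)) = fun j => s (j + 1) := by
      funext j
      rw [zero_add, add_comm]
    have e2 : 0 + 1 + b = b + 1 := by omega
    rw [e1, e2]
    rfl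
  | succ a ih =>
    intro s hs b g h
    have e2 : a + 1 + 1 + b = (a + 1 + b) + 1 := by omega
    have e1 : (fun j => s (a + 1 + 1 + j)) = fun j => s (a + 1 + j + 1) := by
      funext j
      congr 1
      omega
    rw [e1, e2]
    have hK1 : GKer Γ (pK a (fun j => s (j + 1))) := (hUNK Γ F hΓ hF _ (fun j => hs (j + 1)) a).1
    have hK2 : GKer Γ (pK b (fun j => s (a + 1 + j + 1))) :=
      (hUNK Γ F hΓ hF _ (fun j => hs (a + 1 + j + 1)) b).1
    have h1 : pK (a + 1 + b + 1) s g h = ∫ q, s 0 g q * pK (a + 1 + b) (fun j => s (j + 1)) q h ∂mG := rfl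
    have h2 : ∀ p, pK (a + 1) s g p = ∫ q, s 0 g q * pK a (fun j => s (j + 1)) q p ∂mG := fun p => rfl
    rw [h1]
    have h3 : ∀ q, s 0 g q * pK (a + 1 + b) (fun j => s (j + 1)) q h =
        ∫ p, s 0 g q * pK a (fun j => s (j + 1)) q p * pK b (fun j => s (a + 1 + j + 1)) p h ∂mG := by
      intro q
      rw [ih (fun j => s (j + 1)) (fun j => hs (j + 1)) b q h, ← integral_const_mul]
      refine integral_congr_ae (Eventually.of_forall fun p => ?_)
      exact (mul_assoc _ _ _).symm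
    rw [integral_congr_ae (Eventually.of_forall h3)]
    rw [integral_integral_swap (CAK_int Γ (s 0) _ _ (hs 0) hK1 hK2 g h)]
    refine integral_congr_ae (Eventually.of_forall fun p => ?_)
    show ∫ q, s 0 g q * pK a (fun j => s (j + 1)) q p * pK b (fun j => s (a + 1 + j + 1)) p h ∂mG = _
    rw [integral_mul_const, ← h2]

private theorem CAK_end (n : ℕ) : ∀ (s : ℕ → SL(2, ℝ) → SL(2, ℝ) → ℂ) (x y : SL(2, ℝ) → ℂ) (g h : SL(2, ℝ)),
    pK n (fun j g h => (if j = 0 then x g else 1) * s j g h * (if j = n then y h else 1)) g h =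
      x g * pK n s g h * y h := by
  induction n with
  | zero =>
    intro s x y g h
    show (if (0 : ℕ) = 0 then x g else 1) * s 0 g h * (if (0 : ℕ) = 0 then y h else 1) = x g * s 0 g h * y h
    rw [if_pos rfl, if_pos rfl]
  | succ n ih =>
    intro s x y g h
    have e1 : (fun (j : ℕ) (g h : SL(2, ℝ)) => (if j + 1 = 0 then x g else 1) * s (j + 1) g h *
        (if j + 1 = n + 1 then y h else 1)) =
        fun (j : ℕ) (g h : SL(2, ℝ)) => (if j = 0 then (fun _ : SL(2, ℝ) => (1 : ℂ)) g else 1) *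
          (fun j => s (j + 1)) j g h * (if j = n then y h else 1) := by
      funext j g h
      have c1 : (if j + 1 = 0 then x g else 1) = 1 := if_neg (by omega)
      have c2 : (if j = 0 then (1 : ℂ) else 1) = 1 := by split_ifs <;> rfl
      have c3 : (if j + 1 = n + 1 then y h else 1) = if j = n then y h else 1 := by
        by_cases hj : j = n
        · rw [if_pos hj, if_pos (by omega)]
        · rw [if_neg hj, if_neg (by omega)]
      show _ = (if j = 0 then (1 : ℂ) else 1) * s (j + 1) g h * _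
      rw [c1, c2, c3]
    show ∫ p, (if (0 : ℕ) = 0 then x g else 1) * s 0 g p * (if (0 : ℕ) = n + 1 then y p else 1) *
      pK n (fun (j : ℕ) (g h : SL(2, ℝ)) => (if j + 1 = 0 then x g else 1) * s (j + 1) g h *
        (if j + 1 = n + 1 then y h else 1)) p h ∂mG =
      x g * (∫ p, s 0 g p * pK n (fun j => s (j + 1)) p h ∂mG) * y h
    rw [e1, ← integral_const_mul, ← integral_mul_const]
    refine integral_congr_ae (Eventually.of_forall fun p => ?_)
    show (if (0 : ℕ) = 0 then x g else 1) * s 0 g p * (if (0 : ℕ) = n + 1 then y p else 1) *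
      pK n (fun (j : ℕ) (g h : SL(2, ℝ)) => (if j = 0 then (fun _ : SL(2, ℝ) => (1 : ℂ)) g else 1) *
          (fun j => s (j + 1)) j g h * (if j = n then y h else 1)) p h = _
    rw [ih (fun j => s (j + 1)) (fun _ => 1) y p h, if_pos rfl, if_neg (by omega)]
    ring

theorem CAK_proof (hUNK : UNK_stmt) (hKPG : KPG_stmt) : CAK_stmt := by
  intro Γ F hΓ hF s hs
  exact ⟨fun a b g h => CAK_con hUNK Γ F hΓ hF a s hs b g h, fun n x y g h => CAK_end n s x y g h⟩

end

end Pool.Agent.RPQ
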